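import Pool.Agent.H382L.ClusterTail
import Pool.Agent.H382L.GapUnif

open Filter

namespace Pool.Agent.Results.MP_7eacff_nt.ClusterTail

/-- multiplicity of `s` as a zero of the Riemann zeta function (order of vanishing at `s`) -/
noncomputable def zmult (s : ℂ) : ℕ := analyticOrderNatAt riemannZeta s

/-- the number of nontrivial zeros of `ζ` with ordinate in `(0, t]`, with multiplicity -/
noncomputable def NZ (t : ℝ) : ℕ :=
  ∑ᶠ s ∈ {s : ℂ | riemannZeta s = 0 ∧ 0 < s.re ∧ s.re < 1 ∧ 0 < s.im ∧ s.im ≤ t}, zmult s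

/-- for `n ≥ 1`: the `n`-th positive ordinate `γ n` of a nontrivial zero of `ζ`, the ordinates being
listed in nondecreasing order and repeated according to multiplicity -/
noncomputable def γ (n : ℕ) : ℝ := sInf {t : ℝ | n ≤ NZ t}

/-- the unfolded consecutive gaps `δ_n = (γ_{n+1} - γ_n) / 2π · log (γ_n / 2π)` -/
noncomputable def δ (n : ℕ) : ℝ := (γ (n + 1) - γ n) / (2 * Real.pi) * Real.log (γ n / (2 * Real.pi))

theorem RHs_of (RH : RiemannHypothesis) : SP.RHs := by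
  intro s h1 h2 h0
  apply RH s h0
  · rintro ⟨k, hk⟩
    have := congrArg Complex.re hk
    simp at this
    have hk0 : (0 : ℝ) ≤ k := Nat.cast_nonneg k
    linarith
  · intro h; rw [h] at h2; simp at h2

/-- the sum of `m` consecutive unfolded gaps -/
noncomputable def S (m n : ℕ) : ℝ := ∑ i ∈ Finset.range m, δ (n + i)

theorem S_lower {n m : ℕ} (h1 : 1 ≤ n) : (SG.ord (n + m) - SG.ord n) / (2 * Real.pi) *
    Real.log (SG.ord n / (2 * Real.pi)) ≤ S m n := by
  have hpi := Real.pi_pos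
  have hp0 : 0 < SG.ord n := SG.ord_pos h1
  have h4 : ∀ i : ℕ, (SG.ord (n + (i + 1)) - SG.ord (n + i)) / (2 * Real.pi) *
      Real.log (SG.ord n / (2 * Real.pi)) ≤ δ (n + i) := by
    intro i
    show _ ≤ (SG.ord (n + i + 1) - SG.ord (n + i)) / (2 * Real.pi) *
      Real.log (SG.ord (n + i) / (2 * Real.pi))
    rw [show n + (i + 1) = n + i + 1 by ring]
    apply mul_le_mul_of_nonneg_left
    · apply Real.log_le_log (by positivity)
      apply div_le_div_of_nonneg_right _ (by positivity)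
      exact SG.ord_mono h1 (by omega)
    · apply div_nonneg _ (by positivity)
      have := SG.ord_mono (show 1 ≤ n + i by omega) (show n + i ≤ n + i + 1 by omega)
      linarith
  calc (SG.ord (n + m) - SG.ord n) / (2 * Real.pi) * Real.log (SG.ord n / (2 * Real.pi))
      = ∑ i ∈ Finset.range m, (SG.ord (n + (i + 1)) - SG.ord (n + i)) / (2 * Real.pi) *
        Real.log (SG.ord n / (2 * Real.pi)) := by
        rw [← Finset.sum_mul, ← Finset.sum_div,
          Finset.sum_range_sub (fun i => SG.ord (n + i)) m, add_zero]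
    _ ≤ S m n := Finset.sum_le_sum fun i _ => h4 i

theorem S_add (m k n : ℕ) : S (m + k) n = S m n + S k (n + m) := by
  unfold S
  rw [Finset.sum_range_add]
  congr 1
  apply Finset.sum_congr rfl
  intro i _
  rw [Nat.add_assoc]

theorem ord_tendsto : Tendsto (fun n : ℕ => SG.ord n) atTop atTop := by
  rw [tendsto_atTop_atTop]
  intro b
  refine ⟨SG.NZ b + 1, fun n hn => ?_⟩
  by_contra hcon
  push Not at hcon
  have := (SG.ord_le_iff (show 1 ≤ n by omega) b).mp hcon.le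
  omega

theorem S_tendsto (n : ℕ) (hn : 1 ≤ n) : Tendsto (fun m : ℕ => S m n) atTop atTop := by
  have hpi := Real.pi_pos
  obtain ⟨J, hJ⟩ := (tendsto_atTop.mp ord_tendsto (Real.exp 1 * (2 * Real.pi))).exists_forall_of_atTop
  have hJn := hJ (n + J) (by omega)
  have h1 : 1 ≤ Real.log (SG.ord (n + J) / (2 * Real.pi)) := by
    rw [Real.le_log_iff_exp_le (div_pos (SG.ord_pos (by omega)) (by positivity)),
      le_div_iff₀ (by positivity)]
    exact hJn
  have h2 : Tendsto (fun m : ℕ => S J n + (SG.ord (n + J + m) - SG.ord (n + J)) / (2 * Real.pi))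
      atTop atTop := by
    apply tendsto_atTop_add_const_left
    apply Tendsto.atTop_div_const (by positivity)
    apply tendsto_atTop_add_const_right
    have : Tendsto (fun m : ℕ => n + J + m) atTop atTop :=
      tendsto_atTop_mono (fun m => Nat.le_add_left m (n + J)) tendsto_id
    exact ord_tendsto.comp this
  have h3 : Tendsto (fun m : ℕ => S (m + J) n) atTop atTop := by
    refine tendsto_atTop_mono (fun m => ?_) h2
    rw [Nat.add_comm m J, S_add]
    have h4 := S_lower (n := n + J) (m := m) (by omega)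
    have h5 : 0 ≤ (SG.ord (n + J + m) - SG.ord (n + J)) / (2 * Real.pi) := by
      apply div_nonneg _ (by positivity)
      have := SG.ord_mono (show 1 ≤ n + J by omega) (show n + J ≤ n + J + m by omega)
      linarith
    nlinarith
  exact (tendsto_add_atTop_iff_nat J).mp h3

/-- block estimate -/
theorem block (hRH : SP.RHs) (A : ℝ) (hA : 0 < A) : ∃ C T1 : ℝ, 1 ≤ C ∧ 10 ≤ T1 ∧
    ∀ T : ℝ, T1 ≤ T → ∀ m : ℕ, 1 ≤ m →
    ({n : ℕ | 1 ≤ n ∧ T ≤ SG.ord n ∧ SG.ord n ≤ 3 / 2 * T ∧ S m n ≤ A}.ncard : ℝ) ≤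
      C * (C / m) ^ ((m : ℝ) / C) * (T * Real.log T) := by
  obtain ⟨C, T0, hC, hT0, hG⟩ := LG.cluster_tail hRH (2 * A) (by linarith)
  obtain ⟨T2, hT2⟩ := (tendsto_atTop.mp Real.tendsto_log_atTop
    (8 * A * Real.pi)).exists_forall_of_atTop
  have hpi3 := Real.pi_gt_three
  have hpi4 := Real.pi_lt_four
  refine ⟨C, max (max T0 T2) 100, hC, le_trans (by norm_num) (le_max_right _ _),
    fun T hT m hm => ?_⟩
  have hTT0 : T0 ≤ T := ((le_max_left _ _).trans (le_max_left _ _)).trans hT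
  have hTT2 : T2 ≤ T := ((le_max_right _ _).trans (le_max_left _ _)).trans hT
  have hT100 : 100 ≤ T := (le_max_right _ _).trans hT
  have hTpos : 0 < T := by linarith
  have hL8 := hT2 T hTT2
  have hL : 0 < Real.log T := Real.log_pos (by linarith)
  have hlog : Real.log T / 2 ≤ Real.log (T / (2 * Real.pi)) := by
    have h1 : Real.log T / 2 = Real.log (Real.sqrt T) := by
      rw [Real.log_sqrt hTpos.le]
    rw [h1]
    apply Real.log_le_log (Real.sqrt_pos.mpr hTpos)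
    rw [le_div_iff₀ (by positivity)]
    have h2 : 2 * Real.pi ≤ Real.sqrt T := by
      apply Real.le_sqrt_of_sq_le
      nlinarith [Real.pi_lt_d2]
    calc Real.sqrt T * (2 * Real.pi) ≤ Real.sqrt T * Real.sqrt T :=
          mul_le_mul_of_nonneg_left h2 (Real.sqrt_nonneg _)
      _ = T := Real.mul_self_sqrt hTpos.le
  refine le_trans ?_ (hG T hTT0 m hm)
  have hfin : {n : ℕ | 1 ≤ n ∧ T ≤ SG.ord n ∧ SG.ord (n + m) ≤ 2 * T ∧
      SG.ord (n + m) - SG.ord n ≤ 2 * A * (2 * Real.pi / Real.log T)}.Finite := by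
    apply LG.GapAux.fin_ord (2 * T)
    intro k hk
    exact ⟨hk.1, (SG.ord_mono hk.1 (by omega : k ≤ k + m)).trans hk.2.2.1⟩
  have hsub : {n : ℕ | 1 ≤ n ∧ T ≤ SG.ord n ∧ SG.ord n ≤ 3 / 2 * T ∧ S m n ≤ A} ⊆
      {n : ℕ | 1 ≤ n ∧ T ≤ SG.ord n ∧ SG.ord (n + m) ≤ 2 * T ∧
      SG.ord (n + m) - SG.ord n ≤ 2 * A * (2 * Real.pi / Real.log T)} := by
    rintro n ⟨a1, a2, a3, a4⟩
    have h1 := (S_lower (n := n) (m := m) a1).trans a4
    have hd : 0 ≤ SG.ord (n + m) - SG.ord n := by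
      have := SG.ord_mono a1 (by omega : n ≤ n + m)
      linarith
    have h2 : Real.log T / 2 ≤ Real.log (SG.ord n / (2 * Real.pi)) := by
      refine hlog.trans (Real.log_le_log (by positivity) ?_)
      exact div_le_div_of_nonneg_right a2 (by positivity)
    have h3 : (SG.ord (n + m) - SG.ord n) / (2 * Real.pi) * (Real.log T / 2) ≤ A :=
      le_trans (mul_le_mul_of_nonneg_left h2 (div_nonneg hd (by positivity))) h1
    have h4 : SG.ord (n + m) - SG.ord n ≤ 2 * A * (2 * Real.pi / Real.log T) := by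
      rw [← mul_div_assoc, le_div_iff₀ hL]
      rw [div_mul_div_comm, div_le_iff₀ (by positivity)] at h3
      linarith
    refine ⟨a1, a2, ?_, h4⟩
    have h5 : 2 * A * (2 * Real.pi / Real.log T) ≤ 1 / 2 := by
      rw [← mul_div_assoc, div_le_iff₀ hL]
      linarith
    linarith
  exact_mod_cast Set.ncard_le_ncard hsub hfin

/-- summation over blocks -/
theorem blocks (hRH : SP.RHs) (A : ℝ) (hA : 0 < A) : ∃ C T1 : ℝ, 1 ≤ C ∧ 10 ≤ T1 ∧
    ∀ m : ℕ, 1 ≤ m → ∀ T2 : ℝ, T1 ≤ T2 → ∀ Y : ℝ, 1 ≤ Y →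
    ({n : ℕ | 1 ≤ n ∧ T2 < SG.ord n ∧ SG.ord n ≤ Y ∧ S m n ≤ A}.ncard : ℝ) ≤
      3 * (C * (C / m) ^ ((m : ℝ) / C)) * (Y * Real.log Y) := by
  obtain ⟨C, T1, hC, hT1, hb⟩ := block hRH A hA
  refine ⟨C, 2 * T1, hC, by linarith, fun m hm T2 hT2 => ?_⟩
  set B : ℝ := C * (C / m) ^ ((m : ℝ) / C) with hB
  have hmpos : (0 : ℝ) < m := by exact_mod_cast hm
  have hB0 : 0 ≤ B := by
    have : 0 ≤ (C / m) ^ ((m : ℝ) / C) := Real.rpow_nonneg (by positivity) _
    positivity
  have hT20 : 0 < T2 := by linarith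
  have key : ∀ j : ℕ, ∀ Y : ℝ, 1 ≤ Y → Y ≤ (3 / 2 : ℝ) ^ j * T2 →
      ({n : ℕ | 1 ≤ n ∧ T2 < SG.ord n ∧ SG.ord n ≤ Y ∧ S m n ≤ A}.ncard : ℝ) ≤
      3 * B * (Y * Real.log Y) := by
    have hsmall : ∀ Y : ℝ, 1 ≤ Y → Y ≤ T2 →
        ({n : ℕ | 1 ≤ n ∧ T2 < SG.ord n ∧ SG.ord n ≤ Y ∧ S m n ≤ A}.ncard : ℝ) ≤
        3 * B * (Y * Real.log Y) := by
      intro Y hY1 hY
      have hemp : {n : ℕ | 1 ≤ n ∧ T2 < SG.ord n ∧ SG.ord n ≤ Y ∧ S m n ≤ A} = ∅ := by
        rw [Set.eq_empty_iff_forall_notMem]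
        rintro n ⟨-, h1, h2, -⟩
        linarith
      rw [hemp, Set.ncard_empty]
      have := Real.log_nonneg hY1
      simp only [Nat.cast_zero]
      positivity
    intro j
    induction j with
    | zero =>
      intro Y hY1 hY
      rw [pow_zero, one_mul] at hY
      exact hsmall Y hY1 hY
    | succ j ih =>
      intro Y hY1 hY
      rcases le_or_gt Y T2 with h | h
      · exact hsmall Y hY1 h
      · have hY20 : 20 ≤ Y := by linarith
        have h1 : (1 : ℝ) ≤ 2 / 3 * Y := by linarith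
        have h2 : 2 / 3 * Y ≤ (3 / 2 : ℝ) ^ j * T2 := by
          rw [pow_succ] at hY
          linarith
        have h3 := ih (2 / 3 * Y) h1 h2
        have h4 := hb (2 / 3 * Y) (by linarith) m hm
        have hlog : Real.log (2 / 3 * Y) ≤ Real.log Y :=
          Real.log_le_log (by linarith) (by linarith)
        have hlog0 : 0 ≤ Real.log (2 / 3 * Y) := Real.log_nonneg h1
        set A1 : Set ℕ := {n : ℕ | 1 ≤ n ∧ T2 < SG.ord n ∧ SG.ord n ≤ 2 / 3 * Y ∧ S m n ≤ A} with hA1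
        set A2 : Set ℕ := {n : ℕ | 1 ≤ n ∧ 2 / 3 * Y ≤ SG.ord n ∧
          SG.ord n ≤ 3 / 2 * (2 / 3 * Y) ∧ S m n ≤ A} with hA2
        have hsub : {n : ℕ | 1 ≤ n ∧ T2 < SG.ord n ∧ SG.ord n ≤ Y ∧ S m n ≤ A} ⊆ A1 ∪ A2 := by
          rintro n ⟨a1, a2, a3, a4⟩
          rcases le_or_gt (SG.ord n) (2 / 3 * Y) with h5 | h5
          · exact Or.inl ⟨a1, a2, h5, a4⟩
          · exact Or.inr ⟨a1, h5.le, by linarith, a4⟩
        have hf1 : A1.Finite := LG.GapAux.fin_ord Y A1 (fun n hn => ⟨hn.1, by linarith [hn.2.2.1]⟩)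
        have hf2 : A2.Finite := LG.GapAux.fin_ord Y A2 (fun n hn => ⟨hn.1, by linarith [hn.2.2.1]⟩)
        have h6 : {n : ℕ | 1 ≤ n ∧ T2 < SG.ord n ∧ SG.ord n ≤ Y ∧ S m n ≤ A}.ncard ≤
            A1.ncard + A2.ncard :=
          (Set.ncard_le_ncard hsub (hf1.union hf2)).trans (Set.ncard_union_le _ _)
        have h7 : ({n : ℕ | 1 ≤ n ∧ T2 < SG.ord n ∧ SG.ord n ≤ Y ∧ S m n ≤ A}.ncard : ℝ) ≤
            A1.ncard + A2.ncard := by exact_mod_cast h6
        refine h7.trans ((add_le_add h3 h4).trans ?_)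
        have h8 : 3 * B * (2 / 3 * Y * Real.log (2 / 3 * Y)) +
            B * (2 / 3 * Y * Real.log (2 / 3 * Y)) =
            8 / 3 * (B * Y) * Real.log (2 / 3 * Y) := by ring
        rw [h8]
        have h9 : 0 ≤ B * Y := by positivity
        calc 8 / 3 * (B * Y) * Real.log (2 / 3 * Y) ≤ 3 * (B * Y) * Real.log Y := by
              apply mul_le_mul _ hlog hlog0 (by positivity)
              linarith
          _ = _ := by ring
  intro Y hY
  have hlim : Tendsto (fun j : ℕ => (3 / 2 : ℝ) ^ j) atTop atTop :=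
    tendsto_pow_atTop_atTop_of_one_lt (by norm_num)
  obtain ⟨j, hj⟩ := (tendsto_atTop.mp hlim (Y / T2)).exists
  rw [div_le_iff₀ hT20] at hj
  exact key j Y hY hj

theorem uniform (hRH : SP.RHs) (A : ℝ) (hA : 0 < A) : ∃ c : ℝ, 0 < c ∧ ∃ m0 : ℕ, 2 ≤ m0 ∧
    ∀ N : ℕ, 1 ≤ N → ∀ m : ℕ, m0 ≤ m →
    ({n : ℕ | 1 ≤ n ∧ n ≤ N ∧ S m n ≤ A}.ncard : ℝ) ≤ N * Real.exp (-c * m * Real.log m) := by
  obtain ⟨C, T1, hC, hT1, hs⟩ := blocks hRH A hA
  obtain ⟨c1, T2, hc1, hT2, hlow⟩ := LG.GapAux.NZ_low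
  have hCpos : 0 < C := by linarith
  set T3 : ℝ := max T1 (3 * T2 + 3) with hT3
  -- small indices
  have hsm : ∀ᶠ m : ℕ in atTop, ∀ n ∈ Finset.Icc 1 (SG.NZ T3), A < S m n := by
    rw [Filter.eventually_all_finset]
    intro n hn
    exact (S_tendsto n (Finset.mem_Icc.mp hn).1).eventually_gt_atTop A
  set K : ℝ := 9 * C * (2 / c1) with hK
  have hKpos : 0 < K := by positivity
  have hev : ∀ᶠ m : ℕ in atTop, max (max 3 (C ^ 2)) (4 * C * |Real.log K|) ≤ (m : ℝ) :=
    tendsto_natCast_atTop_atTop.eventually_ge_atTop _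
  obtain ⟨m0, hm0⟩ := (hsm.and hev).exists_forall_of_atTop
  refine ⟨1 / (4 * C), by positivity, max m0 2, le_max_right _ _, fun N hN m hm => ?_⟩
  obtain ⟨hsmm, hmm⟩ := hm0 m ((le_max_left _ _).trans hm)
  have hy1 : (3 : ℝ) ≤ m := ((le_max_left _ _).trans (le_max_left _ _)).trans hmm
  have hy2 : C ^ 2 ≤ (m : ℝ) := ((le_max_right _ _).trans (le_max_left _ _)).trans hmm
  have hy3 : 4 * C * |Real.log K| ≤ (m : ℝ) := (le_max_right _ _).trans hmm
  have hypos : (0 : ℝ) < m := by linarith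
  have hm1 : 1 ≤ m := by
    have : (1 : ℝ) ≤ m := by linarith
    exact_mod_cast this
  have hlogy : 1 ≤ Real.log m := by
    rw [Real.le_log_iff_exp_le hypos]
    have := Real.exp_one_lt_d9
    linarith
  set Y : ℝ := SG.ord N with hYdef
  set R : Set ℕ := {n : ℕ | 1 ≤ n ∧ n ≤ N ∧ S m n ≤ A} with hR
  have hbig : ∀ n ∈ R, T3 < SG.ord n := by
    rintro n ⟨a1, a2, a3⟩
    by_contra hcon
    push Not at hcon
    have h1 : n ≤ SG.NZ T3 := (SG.ord_le_iff a1 T3).mp hcon
    have h2 := hsmm n (Finset.mem_Icc.mpr ⟨a1, h1⟩)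
    linarith
  have hRpos : 0 ≤ (N : ℝ) * Real.exp (-(1 / (4 * C)) * m * Real.log m) := by positivity
  by_cases hYT : Y ≤ T3
  · have hemp : R = ∅ := by
      rw [Set.eq_empty_iff_forall_notMem]
      intro n hn
      have h1 := hbig n hn
      have h2 : SG.ord n ≤ Y := SG.ord_mono hn.1 hn.2.1
      linarith
    rw [hemp, Set.ncard_empty]
    simpa using hRpos
  · push Not at hYT
    have hYT1 : T1 ≤ T3 := le_max_left _ _
    have hYT2 : 3 * T2 + 3 ≤ T3 := le_max_right _ _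
    have hYpos : 0 < Y := by linarith
    have h1 := hs m hm1 T3 hYT1 Y (by linarith)
    have hsub : R ⊆ {n : ℕ | 1 ≤ n ∧ T3 < SG.ord n ∧ SG.ord n ≤ Y ∧ S m n ≤ A} := by
      intro n hn
      exact ⟨hn.1, hbig n hn, SG.ord_mono hn.1 hn.2.1, hn.2.2⟩
    have hfin : {n : ℕ | 1 ≤ n ∧ T3 < SG.ord n ∧ SG.ord n ≤ Y ∧ S m n ≤ A}.Finite :=
      LG.GapAux.fin_ord Y _ (fun n hn => ⟨hn.1, hn.2.2.1⟩)
    have h2 : (R.ncard : ℝ) ≤ 3 * (C * (C / m) ^ ((m : ℝ) / C)) * (Y * Real.log Y) := by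
      refine le_trans ?_ h1
      exact_mod_cast Set.ncard_le_ncard hsub hfin
    have h3 := hlow (Y / 3) (by linarith)
    have h4 : SG.NZ (2 * (Y / 3)) < N := by
      by_contra hcon
      push Not at hcon
      have h5 : SG.ord N ≤ 2 * (Y / 3) := (SG.ord_le_iff hN _).mpr hcon
      rw [← hYdef] at h5
      linarith
    have h5 : (SG.NZ (2 * (Y / 3)) : ℝ) ≤ N := by exact_mod_cast h4.le
    have h6 : Real.log Y ≤ 2 * Real.log (Y / 3) := by
      have h7 : Y ≤ (Y / 3) ^ 2 := by nlinarith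
      have h8 := Real.log_le_log hYpos h7
      rw [Real.log_pow] at h8
      push_cast at h8
      exact h8
    have h9 : Y * Real.log Y ≤ 3 * (2 / c1) * N := by
      have h10 : c1 * (Y / 3 * Real.log (Y / 3)) ≤ N := h3.trans h5
      have h11 : Y * Real.log Y ≤ Y * (2 * Real.log (Y / 3)) := mul_le_mul_of_nonneg_left h6 hYpos.le
      have h12 : Y * (2 * Real.log (Y / 3)) = 3 * (2 / c1) * (c1 * (Y / 3 * Real.log (Y / 3))) := by
        field_simp
      rw [h12] at h11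
      refine h11.trans (mul_le_mul_of_nonneg_left h10 (by positivity))
    have h13 : (C / m) ^ ((m : ℝ) / C) ≤ Real.exp (-(1 / (2 * C)) * m * Real.log m) := by
      rw [Real.rpow_def_of_pos (by positivity)]
      apply Real.exp_le_exp.2
      have h14 : Real.log (C / m) ≤ -(1 / 2) * Real.log m := by
        rw [Real.log_div (by positivity) hypos.ne']
        have h15 : Real.log (C ^ 2) ≤ Real.log m := Real.log_le_log (by positivity) hy2
        rw [Real.log_pow] at h15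
        push_cast at h15
        linarith
      have h16 := mul_le_mul_of_nonneg_right h14 (show 0 ≤ (m : ℝ) / C by positivity)
      refine h16.trans (le_of_eq ?_)
      field_simp
    have h17 : K ≤ Real.exp (1 / (4 * C) * m * Real.log m) := by
      rw [← Real.log_le_iff_le_exp hKpos]
      have h18 : Real.log K ≤ 1 / (4 * C) * m := by
        have h20 := le_abs_self (Real.log K)
        rw [show 1 / (4 * C) * (m : ℝ) = m / (4 * C) by ring, le_div_iff₀ (by positivity)]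
        nlinarith
      have h21 : 0 ≤ 1 / (4 * C) * (m : ℝ) := by positivity
      nlinarith
    have h22 : 0 ≤ (C / m) ^ ((m : ℝ) / C) := Real.rpow_nonneg (by positivity) _
    calc (R.ncard : ℝ) ≤ 3 * (C * (C / m) ^ ((m : ℝ) / C)) * (Y * Real.log Y) := h2
      _ ≤ 3 * (C * (C / m) ^ ((m : ℝ) / C)) * (3 * (2 / c1) * N) :=
          mul_le_mul_of_nonneg_left h9 (by positivity)
      _ = N * (K * (C / m) ^ ((m : ℝ) / C)) := by rw [hK]; ring
      _ ≤ N * (Real.exp (1 / (4 * C) * m * Real.log m) *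
            Real.exp (-(1 / (2 * C)) * m * Real.log m)) := by
          apply mul_le_mul_of_nonneg_left _ (Nat.cast_nonneg _)
          exact mul_le_mul h17 h13 h22 (Real.exp_pos _).le
      _ = N * Real.exp (-(1 / (4 * C)) * m * Real.log m) := by
          rw [← Real.exp_add]
          congr 2
          field_simp
          ring

/-- On the Riemann hypothesis, for every `A > 0` there are `c > 0` and `m₀` such that for all `N ≥ 1`
and all `m ≥ m₀` the proportion of the `1 ≤ n ≤ N` for which the sum `δ_n + ... + δ_{n+m-1}` of `m`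
consecutive unfolded gaps (of mean value `m`) is at most `A` is at most `exp (-c m log m)`. -/
theorem result (RH : RiemannHypothesis) (A : ℝ) (hA : 0 < A) :
    ∃ c : ℝ, 0 < c ∧ ∃ m₀ : ℕ, 2 ≤ m₀ ∧ ∀ N : ℕ, 1 ≤ N → ∀ m : ℕ, m₀ ≤ m →
      ({n : ℕ | 1 ≤ n ∧ n ≤ N ∧ ∑ i ∈ Finset.range m, δ (n + i) ≤ A}.ncard : ℝ) ≤
        N * Real.exp (-c * m * Real.log m) :=
  uniform (RHs_of RH) A hA

end Pool.Agent.Results.MP_7eacff_nt.ClusterTail
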